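import Mathlib
import Pool.Agent.Lib.H16C.Stm
import Pool.Agent.Lib.H19Z.L1

/-!
# The Tate-Shafarevich groups of two isomorphic Weierstrass curves are isomorphic

`D : ZL1_D W W' u r s t`: the change of variables `X = u^2 x + r`, `Y = u^3 y + u^2 s x + t` over `K`.
-/

open NumberField IsDedekindDomain WeierstrassCurve

namespace H19Q

open H19Z H16C

section base

variable {K : Type} [Field K] {W W' : WeierstrassCurve.Affine K} {u r s t : K}

theorem D_map (D : ZL1_D W W' u r s t) (F : Type) [Field F] [Algebra K F] :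
    ZL1_D (WeierstrassCurve.Affine.baseChange W F) (WeierstrassCurve.Affine.baseChange W' F)
      (algebraMap K F u) (algebraMap K F r) (algebraMap K F s) (algebraMap K F t) where
  hu := (map_ne_zero _).2 D.hu
  h1 := by
    have h := congrArg (algebraMap K F) D.h1
    simp only [map_mul, map_add, map_ofNat] at h
    exact h
  h2 := by
    have h := congrArg (algebraMap K F) D.h2
    simp only [map_mul, map_add, map_sub, map_pow, map_ofNat] at h
    exact h
  h3 := by
    have h := congrArg (algebraMap K F) D.h3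
    simp only [map_mul, map_add, map_sub, map_pow, map_ofNat] at h
    exact h
  h4 := by
    have h := congrArg (algebraMap K F) D.h4
    simp only [map_mul, map_add, map_sub, map_pow, map_ofNat] at h
    exact h
  h6 := by
    have h := congrArg (algebraMap K F) D.h6
    simp only [map_mul, map_add, map_sub, map_pow, map_ofNat] at h
    exact h

variable [W.IsElliptic] [W'.IsElliptic]

/-- the isomorphism on the points over `F` -/
noncomputable def ff (D : ZL1_D W W' u r s t) (F : Type) [Field F] [Algebra K F] :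
    (WeierstrassCurve.Affine.baseChange W F).Point → (WeierstrassCurve.Affine.baseChange W' F).Point :=
  haveI : (WeierstrassCurve.Affine.baseChange W F).IsElliptic := inferInstanceAs (W.map (algebraMap K F)).IsElliptic
  haveI : (WeierstrassCurve.Affine.baseChange W' F).IsElliptic := inferInstanceAs (W'.map (algebraMap K F)).IsElliptic
  ZL1_f (D_map D F)

theorem ff_zero (D : ZL1_D W W' u r s t) (F : Type) [Field F] [Algebra K F] : ff D F 0 = 0 := rfl

theorem ff_add (D : ZL1_D W W' u r s t) (F : Type) [Field F] [Algebra K F] [DecidableEq F]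
    (P Q : (WeierstrassCurve.Affine.baseChange W F).Point) : ff D F (P + Q) = ff D F P + ff D F Q :=
  haveI : (WeierstrassCurve.Affine.baseChange W F).IsElliptic := inferInstanceAs (W.map (algebraMap K F)).IsElliptic
  haveI : (WeierstrassCurve.Affine.baseChange W' F).IsElliptic := inferInstanceAs (W'.map (algebraMap K F)).IsElliptic
  ZL1_f_add (D_map D F) P Q

theorem ff_inj (D : ZL1_D W W' u r s t) (F : Type) [Field F] [Algebra K F] :
    Function.Injective (ff D F) :=
  haveI : (WeierstrassCurve.Affine.baseChange W F).IsElliptic := inferInstanceAs (W.map (algebraMap K F)).IsElliptic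
  haveI : (WeierstrassCurve.Affine.baseChange W' F).IsElliptic := inferInstanceAs (W'.map (algebraMap K F)).IsElliptic
  ZL1_f_inj (D_map D F)

theorem ff_surj (D : ZL1_D W W' u r s t) (F : Type) [Field F] [Algebra K F] :
    Function.Surjective (ff D F) :=
  haveI : (WeierstrassCurve.Affine.baseChange W F).IsElliptic := inferInstanceAs (W.map (algebraMap K F)).IsElliptic
  haveI : (WeierstrassCurve.Affine.baseChange W' F).IsElliptic := inferInstanceAs (W'.map (algebraMap K F)).IsElliptic
  ZL1_f_surj (D_map D F)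

open Classical in
theorem ff_map (D : ZL1_D W W' u r s t) {F F' : Type} [Field F] [Algebra K F] [Field F'] [Algebra K F']
    (φ : F →ₐ[K] F') (P : (WeierstrassCurve.Affine.baseChange W F).Point) :
    ff D F' (WeierstrassCurve.Affine.Point.map φ P) = WeierstrassCurve.Affine.Point.map φ (ff D F P) := by
  rcases P with _ | ⟨x, y, h⟩
  · rfl
  · change WeierstrassCurve.Affine.Point.some _ _ _ = WeierstrassCurve.Affine.Point.some _ _ _
    rw [WeierstrassCurve.Affine.Point.some.injEq]
    constructor
    · change algebraMap K F' u ^ 2 * φ x + algebraMap K F' r = φ (algebraMap K F u ^ 2 * x + algebraMap K F r)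
      simp only [map_add, map_mul, map_pow, AlgHom.commutes]
    · change algebraMap K F' u ^ 3 * φ y + algebraMap K F' u ^ 2 * algebraMap K F' s * φ x + algebraMap K F' t =
        φ (algebraMap K F u ^ 3 * y + algebraMap K F u ^ 2 * algebraMap K F s * x + algebraMap K F t)
      simp only [map_add, map_mul, map_pow, AlgHom.commutes]

open Classical in
/-- the isomorphism of the groups of points over `F` -/
noncomputable def fe (D : ZL1_D W W' u r s t) (F : Type) [Field F] [Algebra K F] :
    (WeierstrassCurve.Affine.baseChange W F).Point ≃+ (WeierstrassCurve.Affine.baseChange W' F).Point :=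
  AddEquiv.ofBijective (AddMonoidHom.mk' (ff D F) (ff_add D F)) ⟨ff_inj D F, ff_surj D F⟩

open Classical in
theorem fe_map (D : ZL1_D W W' u r s t) {F F' : Type} [Field F] [Algebra K F] [Field F'] [Algebra K F']
    (φ : F →ₐ[K] F') (P : (WeierstrassCurve.Affine.baseChange W F).Point) :
    fe D F' (WeierstrassCurve.Affine.Point.map φ P) = WeierstrassCurve.Affine.Point.map φ (fe D F P) :=
  ff_map D φ P

open Classical in
theorem fe_map_symm (D : ZL1_D W W' u r s t) {F F' : Type} [Field F] [Algebra K F] [Field F'] [Algebra K F']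
    (φ : F →ₐ[K] F') (P : (WeierstrassCurve.Affine.baseChange W' F).Point) :
    (fe D F').symm (WeierstrassCurve.Affine.Point.map φ P) =
      WeierstrassCurve.Affine.Point.map φ ((fe D F).symm P) := by
  apply (fe D F').injective
  rw [AddEquiv.apply_symm_apply, fe_map, AddEquiv.apply_symm_apply]

open Classical in
theorem fe_act (D : ZL1_D W W' u r s t) (Ω : Type) [Field Ω] [Algebra K Ω] (g : Ω ≃ₐ[K] Ω)
    (P : (WeierstrassCurve.Affine.baseChange W Ω).Point) :
    fe D Ω (act W Ω g P) = act W' Ω g (fe D Ω P) := fe_map D (g : Ω →ₐ[K] Ω) P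

open Classical in
theorem fe_act_symm (D : ZL1_D W W' u r s t) (Ω : Type) [Field Ω] [Algebra K Ω] (g : Ω ≃ₐ[K] Ω)
    (P : (WeierstrassCurve.Affine.baseChange W' Ω).Point) :
    (fe D Ω).symm (act W' Ω g P) = act W Ω g ((fe D Ω).symm P) := fe_map_symm D (g : Ω →ₐ[K] Ω) P

open Classical in
theorem coc_iff (D : ZL1_D W W' u r s t) (Ω : Type) [Field Ω] [Algebra K Ω]
    (c : (Ω ≃ₐ[K] Ω) → (WeierstrassCurve.Affine.baseChange W Ω).Point) :
    IsCocycle W' Ω (fun g => fe D Ω (c g)) ↔ IsCocycle W Ω c := by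
  unfold IsCocycle
  refine and_congr ?_ ?_
  · refine forall_congr' fun g => forall_congr' fun h => ?_
    rw [← fe_act, ← map_add]
    exact (fe D Ω).injective.eq_iff
  · refine exists_congr fun F => and_congr_right fun _ => forall_congr' fun g => forall_congr' fun _ => ?_
    exact AddEquiv.map_eq_zero_iff _

open Classical in
theorem loc_iff (D : ZL1_D W W' u r s t) (Ω : Type) [Field Ω] [Algebra K Ω] (L : Type) [Field L] [Algebra K L]
    (c : (Ω ≃ₐ[K] Ω) → (WeierstrassCurve.Affine.baseChange W Ω).Point) :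
    LocTriv W' Ω L (fun g => fe D Ω (c g)) ↔ LocTriv W Ω L c := by
  unfold LocTriv
  refine forall_congr' fun ι => ?_
  constructor
  · rintro ⟨Q, hQ⟩
    refine ⟨(fe D (AlgebraicClosure L)).symm Q, fun σ g h => ?_⟩
    have h1 := hQ σ g h
    apply (fe D (AlgebraicClosure L)).injective
    rw [fe_map, map_sub, fe_act, AddEquiv.apply_symm_apply]
    exact h1
  · rintro ⟨Q, hQ⟩
    refine ⟨fe D (AlgebraicClosure L) Q, fun σ g h => ?_⟩
    have h1 := congrArg (fe D (AlgebraicClosure L)) (hQ σ g h)
    rw [fe_map, map_sub, fe_act] at h1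
    exact h1

open Classical in
theorem cob_iff (D : ZL1_D W W' u r s t) (Ω : Type) [Field Ω] [Algebra K Ω]
    (c : (Ω ≃ₐ[K] Ω) → (WeierstrassCurve.Affine.baseChange W Ω).Point) :
    IsCoboundary W' Ω (fun g => fe D Ω (c g)) ↔ IsCoboundary W Ω c := by
  constructor
  · rintro ⟨Q, hQ⟩
    refine ⟨(fe D Ω).symm Q, fun g => ?_⟩
    apply (fe D Ω).injective
    rw [map_sub, fe_act, AddEquiv.apply_symm_apply]
    exact hQ g
  · rintro ⟨Q, hQ⟩
    refine ⟨fe D Ω Q, fun g => ?_⟩
    show fe D Ω (c g) = _
    rw [hQ g, map_sub, fe_act]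

variable [NumberField K]

open Classical in
theorem mem_iff (D : ZL1_D W W' u r s t) (Ω : Type) [Field Ω] [Algebra K Ω]
    (c : (Ω ≃ₐ[K] Ω) → (WeierstrassCurve.Affine.baseChange W Ω).Point) :
    (fun g => fe D Ω (c g)) ∈ ZSha W' Ω ↔ c ∈ ZSha W Ω := by
  show IsCocycle W' Ω _ ∧ EverywhereTriv W' Ω _ ↔ IsCocycle W Ω _ ∧ EverywhereTriv W Ω _
  unfold EverywhereTriv
  rw [coc_iff]
  refine and_congr_right fun _ => and_congr ?_ ?_
  · exact forall_congr' fun v => loc_iff D Ω _ c
  · exact forall_congr' fun v => loc_iff D Ω _ c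

open Classical in
/-- the map on the cocycles -/
noncomputable def zz (D : ZL1_D W W' u r s t) (Ω : Type) [Field Ω] [Algebra K Ω] : ZSha W Ω →+ ZSha W' Ω where
  toFun c := ⟨fun g => fe D Ω (c.1 g), (mem_iff D Ω c.1).2 c.2⟩
  map_zero' := by
    apply Subtype.ext
    funext g
    show fe D Ω 0 = 0
    exact map_zero _
  map_add' c c' := by
    apply Subtype.ext
    funext g
    show fe D Ω (c.1 g + c'.1 g) = fe D Ω (c.1 g) + fe D Ω (c'.1 g)
    exact map_add _ _ _

open Classical in
theorem zz_surj (D : ZL1_D W W' u r s t) (Ω : Type) [Field Ω] [Algebra K Ω] : Function.Surjective (zz D Ω) := by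
  intro c'
  have e : (fun g => fe D Ω ((fe D Ω).symm (c'.1 g))) = c'.1 := by
    funext g
    exact AddEquiv.apply_symm_apply _ _
  refine ⟨⟨fun g => (fe D Ω).symm (c'.1 g), (mem_iff D Ω _).1 ?_⟩, Subtype.ext e⟩
  rw [e]
  exact c'.2

open Classical in
theorem zz_B (D : ZL1_D W W' u r s t) (Ω : Type) [Field Ω] [Algebra K Ω] (c : ZSha W Ω) :
    zz D Ω c ∈ (BSha W' Ω).addSubgroupOf (ZSha W' Ω) ↔ c ∈ (BSha W Ω).addSubgroupOf (ZSha W Ω) := by
  rw [AddSubgroup.mem_addSubgroupOf, AddSubgroup.mem_addSubgroupOf]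
  exact cob_iff D Ω c.1

open Classical in
/-- Isomorphic curves have isomorphic Tate-Shafarevich groups. -/
theorem sha_iso (D : ZL1_D W W' u r s t) (Ω : Type) [Field Ω] [Algebra K Ω] :
    Nonempty (Sha W Ω ≃+ Sha W' Ω) := by
  have hle : (BSha W Ω).addSubgroupOf (ZSha W Ω) ≤
      ((BSha W' Ω).addSubgroupOf (ZSha W' Ω)).comap (zz D Ω) := fun c hc => (zz_B D Ω c).2 hc
  let f : (ZSha W Ω ⧸ (BSha W Ω).addSubgroupOf (ZSha W Ω)) →+
      (ZSha W' Ω ⧸ (BSha W' Ω).addSubgroupOf (ZSha W' Ω)) := QuotientAddGroup.map _ _ (zz D Ω) hle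
  have hf : Function.Bijective f := by
    constructor
    · rw [injective_iff_map_eq_zero]
      intro x hx
      obtain ⟨c, rfl⟩ := QuotientAddGroup.mk_surjective x
      have h1 : (QuotientAddGroup.mk (zz D Ω c) : ZSha W' Ω ⧸ (BSha W' Ω).addSubgroupOf (ZSha W' Ω)) = 0 := hx
      rw [QuotientAddGroup.eq_zero_iff] at h1 ⊢
      exact (zz_B D Ω c).1 h1
    · intro x
      obtain ⟨c', rfl⟩ := QuotientAddGroup.mk_surjective x
      obtain ⟨c, rfl⟩ := zz_surj D Ω c'
      exact ⟨QuotientAddGroup.mk c, rfl⟩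
  exact ⟨AddEquiv.ofBijective f hf⟩

end base

end H19Q
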