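import Mathlib
import Pool.Agent.Lib.H19X.L0
import Pool.Agent.Lib.H19X.F2

/-!
# The infinite places: a unit of square norm of the cubic algebra over R or C is a square
-/

open NumberField IsDedekindDomain

namespace H19Q

open H55B H55C H55E H19X

theorem inf_sq {L : Type} [Field L] {a b c p q r : L} (h1 : p ^ 2 + 4 * q * r = a)
    (h2 : 2 * p * q + 2 * r ^ 2 = b) (h3 : q ^ 2 + 2 * p * r = c) :
    (AdjoinRoot.of _ a + AdjoinRoot.of _ b * AdjoinRoot.root _ +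
      AdjoinRoot.of _ c * AdjoinRoot.root _ ^ 2 : Cub L) =
      (AdjoinRoot.of _ p + AdjoinRoot.of _ q * AdjoinRoot.root _ +
        AdjoinRoot.of _ r * AdjoinRoot.root _ ^ 2) ^ 2 := by
  have hT := A18_root L
  have e1 := congrArg (AdjoinRoot.of (Polynomial.X ^ 3 - Polynomial.C 2 : Polynomial L)) h1
  have e2 := congrArg (AdjoinRoot.of (Polynomial.X ^ 3 - Polynomial.C 2 : Polynomial L)) h2
  have e3 := congrArg (AdjoinRoot.of (Polynomial.X ^ 3 - Polynomial.C 2 : Polynomial L)) h3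
  simp only [map_add, map_mul, map_pow, map_ofNat] at e1 e2 e3
  set T : Cub L := AdjoinRoot.root (Polynomial.X ^ 3 - Polynomial.C 2 : Polynomial L)
  rw [← e1, ← e2, ← e3]
  linear_combination -(2 * AdjoinRoot.of _ q * AdjoinRoot.of _ r + (AdjoinRoot.of _ r) ^ 2 * T) * hT

theorem inf_c {A B C w t s0 s1 s2 : ℂ} (hw : w ^ 2 + w + 1 = 0) (ht : t ^ 3 = 2)
    (h0 : s0 ^ 2 = A + B * t + C * t ^ 2) (h1 : s1 ^ 2 = A + B * (w * t) + C * (w * t) ^ 2)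
    (h2 : s2 ^ 2 = A + B * (w ^ 2 * t) + C * (w ^ 2 * t) ^ 2) :
    ∃ p q r : ℂ, p ^ 2 + 4 * q * r = A ∧ 2 * p * q + 2 * r ^ 2 = B ∧ q ^ 2 + 2 * p * r = C := by
  have hw3 : w ^ 3 = 1 := by linear_combination (w - 1) * hw
  refine ⟨(s0 + s1 + s2) / 3, (s0 + w ^ 2 * s1 + w * s2) * t ^ 2 / 6,
    (s0 + w * s1 + w ^ 2 * s2) * t / 6, ?_, ?_, ?_⟩
  · linear_combination ((s0 + w ^ 2 * s1 + w * s2) * (s0 + w * s1 + w ^ 2 * s2) / 9) * ht +
      (2 / 9) * (s1 ^ 2 + s2 ^ 2) * hw3 + (2 / 9) * (s0 * s1 + s0 * s2) * hw +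
      (2 / 9) * s1 * s2 * (w ^ 2 - w + 1) * hw + (1 / 3) * (h0 + h1 + h2) + (1 / 3) * (B * t) * hw +
      (1 / 3) * C * t ^ 2 * (w ^ 2 - w + 1) * hw
  · linear_combination (t ^ 2 / 6) * (h0 + w ^ 2 * h1 + w * h2) + (t ^ 2 / 18) * w * s2 ^ 2 * hw3 +
      (t ^ 2 / 9) * (s0 * s1 + s0 * s2) * hw + (t ^ 2 / 9) * s1 * s2 * w * hw +
      (t ^ 2 / 6) * (A * hw + 2 * B * t * hw3 + C * t ^ 2 * (hw + (w + w ^ 2) * hw3)) + (B / 2) * ht
  · linear_combination ((s0 + w ^ 2 * s1 + w * s2) ^ 2 * t / 36) * ht +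
      (t / 6) * (h0 + w * h1 + w ^ 2 * h2) + (t / 18) * w * s1 ^ 2 * hw3 +
      (t / 9) * (s0 * s1 + s0 * s2) * hw + (t / 9) * s1 * s2 * w * hw +
      (t / 6) * (A * hw + B * t * (w ^ 2 - w + 1) * hw + C * t ^ 2 * (w ^ 3 + 2) * hw3) + (C / 2) * ht

theorem inf_r {A B C k t s0 u v : ℝ} (hk : k ^ 2 = 3) (ht : t ^ 3 = 2)
    (h0 : s0 ^ 2 = A + B * t + C * t ^ 2) (h1 : u ^ 2 - v ^ 2 = A - B * t / 2 - C * t ^ 2 / 2)
    (h2 : 2 * u * v = (k / 2) * (B * t - C * t ^ 2)) :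
    ∃ p q r : ℝ, p ^ 2 + 4 * q * r = A ∧ 2 * p * q + 2 * r ^ 2 = B ∧ q ^ 2 + 2 * p * r = C := by
  refine ⟨(s0 + 2 * u) / 3, (s0 - u + k * v) * t ^ 2 / 6, (s0 - u - k * v) * t / 6, ?_, ?_, ?_⟩
  · linear_combination (1 / 3) * h0 + (2 / 3) * h1 + (1 / 9) * ((s0 - u) ^ 2 - k ^ 2 * v ^ 2) * ht -
      (2 / 9) * v ^ 2 * hk
  · linear_combination (t ^ 2 / 6) * h0 - (t ^ 2 / 6) * h1 + (t ^ 2 / 6) * k * h2 +
      (t ^ 2 / 18) * v ^ 2 * hk + (t ^ 2 / 12) * (B * t - C * t ^ 2) * hk + (B / 2) * ht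
  · linear_combination ((s0 - u + k * v) ^ 2 * t / 36) * ht + (t / 6) * h0 - (t / 6) * h1 -
      (t / 6) * k * h2 + (t / 18) * v ^ 2 * hk - (t / 12) * (B * t - C * t ^ 2) * hk + (C / 2) * ht

theorem cub_of_three {L : Type} [Field L] {R : Type} [Field R] (e : L ≃+* R) (a b c : L) {p q r : R}
    (h1 : p ^ 2 + 4 * q * r = e a) (h2 : 2 * p * q + 2 * r ^ 2 = e b) (h3 : q ^ 2 + 2 * p * r = e c) :
    ∃ z : Cub L, (AdjoinRoot.of _ a + AdjoinRoot.of _ b * AdjoinRoot.root _ +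
      AdjoinRoot.of _ c * AdjoinRoot.root _ ^ 2 : Cub L) = z ^ 2 := by
  refine ⟨_, inf_sq (p := e.symm p) (q := e.symm q) (r := e.symm r) ?_ ?_ ?_⟩
  · apply e.injective
    rw [← h1]
    simp only [map_add, map_mul, map_pow, map_ofNat, RingEquiv.apply_symm_apply]
  · apply e.injective
    rw [← h2]
    simp only [map_add, map_mul, map_pow, map_ofNat, RingEquiv.apply_symm_apply]
  · apply e.injective
    rw [← h3]
    simp only [map_add, map_mul, map_pow, map_ofNat, RingEquiv.apply_symm_apply]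

theorem sq_complex {L : Type} [Field L] (e : L ≃+* ℂ) (m : Cub L) : ∃ z : Cub L, m = z ^ 2 := by
  obtain ⟨a, b, c, rfl⟩ := F2_coords L m
  obtain ⟨t, ht⟩ := IsAlgClosed.exists_pow_nat_eq (2 : ℂ) (n := 3) (by norm_num)
  obtain ⟨i, hi⟩ := IsAlgClosed.exists_pow_nat_eq (-3 : ℂ) (n := 2) (by norm_num)
  have hw : ((-1 + i) / 2) ^ 2 + ((-1 + i) / 2) + 1 = 0 := by linear_combination (1 / 4) * hi
  set w : ℂ := (-1 + i) / 2
  obtain ⟨s0, h0⟩ := IsAlgClosed.exists_pow_nat_eq (e a + e b * t + e c * t ^ 2) (n := 2) (by norm_num)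
  obtain ⟨s1, h1⟩ := IsAlgClosed.exists_pow_nat_eq (e a + e b * (w * t) + e c * (w * t) ^ 2) (n := 2)
    (by norm_num)
  obtain ⟨s2, h2⟩ := IsAlgClosed.exists_pow_nat_eq (e a + e b * (w ^ 2 * t) + e c * (w ^ 2 * t) ^ 2)
    (n := 2) (by norm_num)
  obtain ⟨p, q, r, g1, g2, g3⟩ := inf_c hw ht h0 h1 h2
  exact cub_of_three e a b c g1 g2 g3

theorem sq_real {L : Type} [Field L] (e : L ≃+* ℝ) (m : Cub L) (hm : IsUnit m) (n : L)
    (hn : Algebra.norm L m = n ^ 2) : ∃ z : Cub L, m = z ^ 2 := by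
  obtain ⟨a, b, c, rfl⟩ := F2_coords L m
  have hn0 : Algebra.norm L (AdjoinRoot.of _ a + AdjoinRoot.of _ b * AdjoinRoot.root _ +
      AdjoinRoot.of _ c * AdjoinRoot.root _ ^ 2 : Cub L) ≠ 0 := (hm.map (Algebra.norm L)).ne_zero
  rw [A18_norm] at hn hn0
  obtain ⟨t, ht⟩ : ∃ t : ℝ, t ^ 3 = 2 := by
    refine ⟨(2 : ℝ) ^ ((1 : ℝ) / 3), ?_⟩
    rw [← Real.rpow_natCast, ← Real.rpow_mul (by norm_num)]
    norm_num
  have hk : (Real.sqrt 3) ^ 2 = 3 := Real.sq_sqrt (by norm_num)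
  obtain ⟨A, hA⟩ : ∃ A, A = e a := ⟨_, rfl⟩
  obtain ⟨B, hB⟩ : ∃ B, B = e b := ⟨_, rfl⟩
  obtain ⟨C, hC⟩ : ∃ C, C = e c := ⟨_, rfl⟩
  have hN : A ^ 3 + 2 * B ^ 3 + 4 * C ^ 3 - 6 * A * B * C = (e n) ^ 2 := by
    have h := congrArg e hn
    simp only [map_add, map_mul, map_pow, map_ofNat, map_sub] at h
    rw [hA, hB, hC]
    exact h
  have hN0 : A ^ 3 + 2 * B ^ 3 + 4 * C ^ 3 - 6 * A * B * C ≠ 0 := by
    intro h0
    apply hn0
    apply e.injective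
    rw [map_zero]
    simp only [map_add, map_mul, map_pow, map_ofNat, map_sub]
    rw [← hA, ← hB, ← hC]
    exact h0
  have hfac : A ^ 3 + 2 * B ^ 3 + 4 * C ^ 3 - 6 * A * B * C = (A + B * t + C * t ^ 2) *
      ((A - B * t / 2 - C * t ^ 2 / 2) ^ 2 + 3 / 4 * (B * t - C * t ^ 2) ^ 2) := by
    linear_combination (-(B ^ 3 + C ^ 3 * (t ^ 3 + 2) - 3 * A * B * C)) * ht
  have hpos : 0 ≤ A + B * t + C * t ^ 2 := by
    by_contra hneg
    push Not at hneg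
    have h1 : 0 ≤ (A - B * t / 2 - C * t ^ 2 / 2) ^ 2 + 3 / 4 * (B * t - C * t ^ 2) ^ 2 := by positivity
    have h2 : (A + B * t + C * t ^ 2) *
      ((A - B * t / 2 - C * t ^ 2 / 2) ^ 2 + 3 / 4 * (B * t - C * t ^ 2) ^ 2) ≤ 0 :=
      mul_nonpos_of_nonpos_of_nonneg hneg.le h1
    rw [← hfac] at h2
    have h3 : 0 ≤ A ^ 3 + 2 * B ^ 3 + 4 * C ^ 3 - 6 * A * B * C := by rw [hN]; positivity
    exact hN0 (le_antisymm h2 h3)
  obtain ⟨z, hz⟩ := IsAlgClosed.exists_pow_nat_eq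
    (⟨A - B * t / 2 - C * t ^ 2 / 2, (Real.sqrt 3 / 2) * (B * t - C * t ^ 2)⟩ : ℂ) (n := 2) (by norm_num)
  have hre := congrArg Complex.re hz
  have him := congrArg Complex.im hz
  rw [pow_two, Complex.mul_re] at hre
  rw [pow_two, Complex.mul_im] at him
  simp only at hre him
  obtain ⟨p, q, r, g1, g2, g3⟩ := inf_r (u := z.re) (v := z.im) hk ht (Real.sq_sqrt hpos)
    (by linear_combination hre) (by linear_combination him)
  rw [hA] at g1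
  rw [hB] at g2
  rw [hC] at g3
  exact cub_of_three e a b c g1 g2 g3

/-- Over a completion at an infinite place every unit of square norm is a square. -/
theorem sq_inf (K : Type) [Field K] [NumberField K] (v : InfinitePlace K) (m : Cub v.Completion)
    (hm : IsUnit m) (n : v.Completion) (hn : Algebra.norm v.Completion m = n ^ 2) :
    ∃ z : Cub v.Completion, m = z ^ 2 := by
  rcases v.isReal_or_isComplex with hv | hv
  · exact sq_real (InfinitePlace.Completion.ringEquivRealOfIsReal hv) m hm n hn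
  · exact sq_complex (InfinitePlace.Completion.ringEquivComplexOfIsComplex hv) m

end H19Q
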