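import Mathlib
import Pool.Agent.Lib.H16A.H5
import Pool.Agent.Lib.H16A.C3
import Pool.Agent.Lib.H16G.G13
import Pool.Agent.Lib.H16G.G12
import Pool.Agent.Lib.H19X.LG2
import Pool.Agent.Lib.H19Y.Stat
import Pool.Agent.Lib.H19Q.Inf

/-!
# Seld d K = the Selmer group of EC d : Y^2 = X^3 + 16 d^3 of H16A; comparison with Sha (H16G)
-/

open NumberField IsDedekindDomain

namespace H19Q

open H55B H55C H55E H19X H19Y H16A H16C

theorem ss_disc {d : ℤ} (hd : d ≠ 0) : (EC d).disc ≠ 0 := by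
  have : (EC d).disc = -(27 * 256) * d ^ 6 := by
    unfold EC H16A.Cub.disc
    ring
  rw [this]
  exact mul_ne_zero (by norm_num) (pow_ne_zero _ hd)

/-- The isomorphisms tau are compatible with the homomorphisms of fields. -/
theorem ss_tau {k k' : Type} [Field k] [Field k'] (f : k →+* k') (d : ℤ)
    (τ : (EC d).Alg k ≃ₐ[k] Cub k) (hτ : τ ((EC d).th k) = -(2 * (d : Cub k)) * AdjoinRoot.root _)
    (τ' : (EC d).Alg k' ≃ₐ[k'] Cub k') (hτ' : τ' ((EC d).th k') = -(2 * (d : Cub k')) * AdjoinRoot.root _)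
    (u : (EC d).Alg k) : τ' ((EC d).algMap f u) = cmap f (τ u) := by
  have h1 : ((τ' : (EC d).Alg k' →+* Cub k').comp ((EC d).algMap f)) =
      (cmap f).comp (τ : (EC d).Alg k →+* Cub k) := by
    refine AdjoinRoot.ringHom_ext ?_ ?_
    · ext x
      change τ' ((EC d).algMap f (algebraMap k ((EC d).Alg k) x)) = cmap f (τ (algebraMap k ((EC d).Alg k) x))
      rw [(EC d).c3_algMap_al, AlgEquiv.commutes, AlgEquiv.commutes]
      unfold cmap
      exact (AdjoinRoot.map_of _ _ _ _ _).symm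
    · change τ' ((EC d).algMap f ((EC d).th k)) = cmap f (τ ((EC d).th k))
      have e2 : cmap f 2 = 2 := map_ofNat _ 2
      have er : cmap f (AdjoinRoot.root _) = AdjoinRoot.root _ := AdjoinRoot.map_root _ _ _ _
      rw [(EC d).c3_algMap_th, hτ, hτ', map_mul, map_neg, map_mul, map_intCast, e2, er]
  exact congrArg (fun g : (EC d).Alg k →+* Cub k' => g u) h1

theorem mem_sel (K : Type) [Field K] [NumberField K] (d : ℤ) (hd : d ≠ 0) (τ : (EC d).Alg K ≃ₐ[K] Cub K)
    (hτ : τ ((EC d).th K) = -(2 * (d : Cub K)) * AdjoinRoot.root _) (u : ((EC d).Alg K)ˣ) :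
    u ∈ (EC d).selSub K ↔ τ (u : (EC d).Alg K) ∈ Seld d K := by
  have hn : Algebra.norm K (τ (u : (EC d).Alg K)) = Algebra.norm K (u : (EC d).Alg K) :=
    Algebra.norm_eq_of_algEquiv τ _
  unfold Cub.selSub
  rw [Subgroup.mem_inf, Subgroup.mem_inf, Subgroup.mem_iInf, Subgroup.mem_iInf]
  have hsq : u ∈ (EC d).normSq K ↔ ∃ n : K, Algebra.norm K (u : (EC d).Alg K) = n ^ 2 := by
    change IsSquare (Algebra.norm K (u : (EC d).Alg K)) ↔ _
    rw [isSquare_iff_exists_sq]
  constructor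
  · rintro ⟨h1, h2, -⟩
    refine ⟨(u.isUnit.map τ), ?_, fun w => ?_⟩
    · rw [hn]
      exact hsq.1 h1
    · have hcz : CharZero (w.adicCompletion K) :=
        charZero_of_injective_algebraMap (algebraMap K (w.adicCompletion K)).injective
      obtain ⟨τ', hτ', -⟩ := exists_tau (w.adicCompletion K) d hd
      have h3 := loc_of_imSub K w d hd τ' hτ' _ (h2 w)
      have e : (((EC d).uMap (algebraMap K (w.adicCompletion K)) u : ((EC d).Alg (w.adicCompletion K))ˣ) :
        (EC d).Alg (w.adicCompletion K)) = (EC d).algMap (algebraMap K (w.adicCompletion K)) (u : (EC d).Alg K) := rfl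
      rw [e, ss_tau _ d τ hτ τ' hτ'] at h3
      exact h3
  · rintro ⟨h1, ⟨n, h2⟩, h3⟩
    rw [hn] at h2
    refine ⟨hsq.2 ⟨n, h2⟩, fun w => ?_, fun v => ?_⟩
    · have hcz : CharZero (w.adicCompletion K) :=
        charZero_of_injective_algebraMap (algebraMap K (w.adicCompletion K)).injective
      obtain ⟨τ', hτ', -⟩ := exists_tau (w.adicCompletion K) d hd
      have h4 := h3 w
      rw [← ss_tau _ d τ hτ τ' hτ'] at h4
      obtain ⟨x, y, h, -, hR⟩ := exists_rel_of_loc (w.adicCompletion K) d hd τ' hτ'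
        ((EC d).uMap (algebraMap K (w.adicCompletion K)) u) (algebraMap K (w.adicCompletion K) n) (by
          change Algebra.norm _ ((EC d).algMap (algebraMap K (w.adicCompletion K)) (u : (EC d).Alg K)) = _
          rw [(EC d).norm_algMap, h2, map_pow]) h4
      exact Subgroup.subset_closure ⟨_, hR⟩
    · have hcz : CharZero v.Completion :=
        charZero_of_injective_algebraMap (algebraMap K v.Completion).injective
      obtain ⟨τ', hτ', -⟩ := exists_tau v.Completion d hd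
      obtain ⟨z, hz⟩ := sq_inf K v (τ' ((EC d).algMap (algebraMap K v.Completion) (u : (EC d).Alg K))) (by
          exact ((u.isUnit.map ((EC d).algMap (algebraMap K v.Completion))).map τ'))
        (algebraMap K v.Completion n) (by
          rw [Algebra.norm_eq_of_algEquiv τ', (EC d).norm_algMap, h2, map_pow])
      refine Subgroup.subset_closure ⟨0, ?_⟩
      change IsSquare ((EC d).algMap (algebraMap K v.Completion) (u : (EC d).Alg K))
      refine ⟨τ'.symm z, ?_⟩
      apply τ'.injective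
      rw [map_mul, AlgEquiv.apply_symm_apply, hz, pow_two]

theorem selSub_sq (K : Type) [Field K] [NumberField K] (d : ℤ) (hd : d ≠ 0) (h : SelZ d K)
    (u : ((EC d).Alg K)ˣ) (hu : u ∈ (EC d).selSub K) : u ∈ (EC d).imSub K := by
  obtain ⟨τ, hτ, -⟩ := exists_tau K d hd
  obtain ⟨b, hb⟩ := h _ ((mem_sel K d hd τ hτ u).1 hu)
  refine Subgroup.subset_closure ⟨0, ?_⟩
  change IsSquare (u : (EC d).Alg K)
  refine ⟨τ.symm b, ?_⟩
  apply τ.injective
  rw [map_mul, AlgEquiv.apply_symm_apply, hb, pow_two]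

/-- If the Selmer group is zero then Sha[2] = 0. -/
theorem sha_of_sel (K : Type) [Field K] [NumberField K] (Ω : Type) [Field Ω] [Algebra K Ω] [IsAlgClosed Ω]
    [Algebra.IsAlgebraic K Ω] (d : ℤ) (hd : d ≠ 0) (h : SelZ d K)
    (x : Sha (H16G.WK (EC d) K) Ω) (hx : 2 • x = 0) : x = 0 := by
  obtain ⟨f, hf⟩ := H16G.exists_inj2 (E := EC d) (K := K) (Ω := Ω) rfl (ss_disc hd)
  have hsub : Subsingleton ((EC d).Sha2 K) := by
    refine ⟨fun a b => ?_⟩
    obtain ⟨a, rfl⟩ := QuotientGroup.mk_surjective a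
    obtain ⟨b, rfl⟩ := QuotientGroup.mk_surjective b
    refine QuotientGroup.eq.2 ?_
    rw [Subgroup.mem_subgroupOf]
    exact selSub_sq K d hd h _ (a⁻¹ * b).2
  have h1 : (⟨x, hx⟩ : {x : Sha (H16G.WK (EC d) K) Ω // 2 • x = 0}) = ⟨0, smul_zero 2⟩ :=
    hf (Subsingleton.elim _ _)
  exact congrArg Subtype.val h1

/-- If Sha[2] = 0 and all rational points are divisible by 2 then the Selmer group is zero. -/
theorem sel_of_sha (K : Type) [Field K] [NumberField K] (Ω : Type) [Field Ω] [Algebra K Ω] [IsAlgClosed Ω]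
    [Algebra.IsAlgebraic K Ω] [DecidableEq K] (d : ℤ) (hd : d ≠ 0)
    (h : ∀ x : Sha (H16G.WK (EC d) K) Ω, 2 • x = 0 → x = 0)
    (hP : ∀ P : (EC d).Pt K, ∃ Q : (EC d).Pt K, P = Q + Q) : SelZ d K := by
  intro m hm
  have h2 : (2 : K) ≠ 0 := two_ne_zero
  have hdK : (((EC d).disc : ℤ) : K) ≠ 0 := Int.cast_ne_zero.2 (ss_disc hd)
  obtain ⟨τ, hτ, -⟩ := exists_tau K d hd
  obtain ⟨f, hf, hf2⟩ := H16G.exists_inj1 (E := EC d) (K := K) (Ω := Ω) rfl (ss_disc hd)
  obtain ⟨u, hu⟩ : ∃ u : ((EC d).Alg K)ˣ, (u : (EC d).Alg K) = τ.symm m :=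
    ⟨(hm.1.map τ.symm).unit, rfl⟩
  have hτu : τ (u : (EC d).Alg K) = m := by rw [hu, AlgEquiv.apply_symm_apply]
  have hus : u ∈ (EC d).selSub K := by
    rw [mem_sel K d hd τ hτ, hτu]
    exact hm
  have hui : u ∈ (EC d).imSub K := by
    have h3 : (QuotientGroup.mk (⟨u, hus⟩ : (EC d).selSub K) : (EC d).Sha2 K) = QuotientGroup.mk 1 :=
      hf ((h _ (hf2 _)).trans (h _ (hf2 _)).symm)
    have h4 := QuotientGroup.eq.1 h3.symm
    rw [Subgroup.mem_subgroupOf] at h4
    have e : (((1 : (EC d).selSub K)⁻¹ * (⟨u, hus⟩ : (EC d).selSub K) : (EC d).selSub K) : ((EC d).Alg K)ˣ) = u := by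
      rw [inv_one, one_mul]
    rwa [e] at h4
  obtain ⟨P, hRP⟩ := ((EC d).mem_imSub_iff h2 hdK u).1 hui
  obtain ⟨Q, hQ⟩ := hP P
  obtain ⟨v, hv⟩ := (EC d).exists_rel h2 hdK Q
  have hvv := (EC d).rel_add h2 hdK hv hv
  rw [← hQ] at hvv
  have h5 := (EC d).rel_add h2 hdK hRP ((EC d).rel_neg h2 hdK hvv)
  rw [add_neg_cancel] at h5
  obtain ⟨z, hz⟩ : IsSquare ((u * (v * v)⁻¹ : ((EC d).Alg K)ˣ) : (EC d).Alg K) := h5
  refine ⟨τ (z * (v : (EC d).Alg K)), ?_⟩
  rw [← hτu, ← map_pow]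
  congr 1
  rw [mul_pow, pow_two z, ← hz, pow_two, ← Units.val_mul, ← Units.val_mul, inv_mul_cancel_right]

end H19Q
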