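import Mathlib
import Pool.Agent.Lib.H19Q.Tr
import Pool.Agent.Lib.H19Q.SS
import Pool.Agent.Lib.H19Z.A1
import Pool.Agent.Lib.H19Z.T1
import Pool.Agent.Lib.H55C.A5

/-!
# The 2-Selmer group of E_d is zero if and only if E_d(K) is finite and Sha(E_d/K)[2] = 0
(2 not a cube in K)
-/

open NumberField IsDedekindDomain WeierstrassCurve

namespace H19Q

open H55B H55C H55E H19X H19Y H16A H16C H19Z

section

variable {K : Type} [Field K] [CharZero K] {d : ℤ}

theorem ell_Ed (hd : d ≠ 0) : ((Ed d).baseChange K).IsElliptic := by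
  refine ⟨isUnit_iff_ne_zero.2 ?_⟩
  have hd' : (d : K) ≠ 0 := Int.cast_ne_zero.2 hd
  have e : ((Ed d).baseChange K).Δ = -(27 * (d : K) ^ 6) := by
    have h6 : algebraMap ℚ K (((d : ℚ) ^ 3 - 1) / 4) = ((d : K) ^ 3 - 1) / 4 := by
      rw [map_div₀, map_sub, map_pow, map_intCast, map_one, map_ofNat]
    unfold WeierstrassCurve.baseChange WeierstrassCurve.map Ed WeierstrassCurve.Δ WeierstrassCurve.b₂
      WeierstrassCurve.b₄ WeierstrassCurve.b₆ WeierstrassCurve.b₈
    simp only [map_zero, map_one, h6]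
    ring
  rw [e]
  exact neg_ne_zero.2 (mul_ne_zero (by norm_num) (pow_ne_zero 6 hd'))

/-- X = 4x, Y = 8y + 4 -/
theorem D_Ed (d : ℤ) : ZL1_D ((Ed d).baseChange K) (H16G.WK (EC d) K) 2 0 0 4 where
  hu := two_ne_zero
  h1 := by
    show 2 * algebraMap ℚ K 0 = algebraMap ℤ K 0 + 2 * 0
    simp
  h2 := by
    show 2 ^ 2 * algebraMap ℚ K 0 = algebraMap ℤ K 0 - 0 * algebraMap ℤ K 0 + 3 * 0 - 0 ^ 2
    simp
  h3 := by
    show 2 ^ 3 * algebraMap ℚ K 1 = algebraMap ℤ K 0 + 0 * algebraMap ℤ K 0 + 2 * 4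
    simp
    norm_num
  h4 := by
    show 2 ^ 4 * algebraMap ℚ K 0 = algebraMap ℤ K 0 - 0 * algebraMap ℤ K 0 + 2 * 0 * algebraMap ℤ K 0 -
      (4 + 0 * 0) * algebraMap ℤ K 0 + 3 * 0 ^ 2 - 2 * 0 * 4
    simp
  h6 := by
    show 2 ^ 6 * algebraMap ℚ K (((d : ℚ) ^ 3 - 1) / 4) = algebraMap ℤ K (16 * d ^ 3) + 0 * algebraMap ℤ K 0 +
      0 ^ 2 * algebraMap ℤ K 0 + 0 ^ 3 - 4 * algebraMap ℤ K 0 - 4 ^ 2 - 0 * 4 * algebraMap ℤ K 0
    rw [map_div₀, map_sub, map_pow, map_intCast, map_one, map_ofNat]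
    simp
    ring

open Classical in
theorem sha_equiv [NumberField K] (Ω : Type) [Field Ω] [Algebra K Ω] (hd : d ≠ 0) :
    Nonempty (Sha ((Ed d).baseChange K).toAffine Ω ≃+ Sha (H16G.WK (EC d) K) Ω) := by
  have h1 : ((Ed d).baseChange K).toAffine.IsElliptic := ell_Ed hd
  have h2 : (H16G.WK (EC d) K).IsElliptic := H16G.ellK rfl (ss_disc hd)
  exact sha_iso (D_Ed d) Ω

open Classical in
theorem pt_equiv (hd : d ≠ 0) : Nonempty (((Ed d).baseChange K).toAffine.Point ≃+ (EC d).Pt K) := by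
  have h1 : ((Ed d).baseChange K).IsElliptic := ell_Ed hd
  have h2 : (H16G.WK (EC d) K).IsElliptic := H16G.ellK rfl (ss_disc hd)
  exact ⟨ZL1_iso (D_Ed d)⟩

/-- No points of order two if 2 is not a cube in K. -/
theorem no_two_EC [DecidableEq K] (hd : d ≠ 0) (hno : ¬ ∃ x : K, x ^ 3 = 2) (P : (EC d).Pt K)
    (hP : P + P = 0) : P = 0 := by
  by_contra h0
  match P with
  | 0 => exact h0 rfl
  | .some x y h =>
    have hd' : (d : K) ≠ 0 := Int.cast_ne_zero.2 hd
    have hQn := eq_neg_of_add_eq_zero_left hP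
    rw [WeierstrassCurve.Affine.Point.neg_some] at hQn
    have h6 := (WeierstrassCurve.Affine.Point.some.injEq _ _ _ _ _ _).mp hQn
    have h7 := h6.2
    rw [LG2_negY] at h7
    have h8 : y = 0 := by
      have h9 : 2 * y = 0 := by linear_combination h7
      rcases mul_eq_zero.1 h9 with h | h
      · exact absurd h two_ne_zero
      · exact h
    have hE : y ^ 2 = x ^ 3 + 16 * (d : K) ^ 3 := by
      rw [← lg1_val]
      exact ((EC d).h4_eq_iff x y).1 h.1
    apply hno
    refine ⟨-(x / (2 * d)), ?_⟩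
    rw [h8] at hE
    have h10 : x ^ 3 = -(16 * (d : K) ^ 3) := by linear_combination -hE
    rw [neg_pow, div_pow, h10]
    field_simp
    norm_num

open Classical in
/-- THEOREM. -/
theorem selZ_iff [NumberField K] (hd : d ≠ 0) (hno : ¬ ∃ x : K, x ^ 3 = 2)
    (hfin : SelZ d K → Finite ((Ed d).baseChange K).toAffine.Point) :
    SelZ d K ↔ Finite ((Ed d).baseChange K).toAffine.Point ∧
      ∀ x : Sha ((Ed d).baseChange K).toAffine (AlgebraicClosure K), 2 • x = 0 → x = 0 := by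
  obtain ⟨φ⟩ := sha_equiv (K := K) (d := d) (AlgebraicClosure K) hd
  obtain ⟨ψ⟩ := pt_equiv (K := K) (d := d) hd
  constructor
  · intro h
    refine ⟨hfin h, fun x hx => ?_⟩
    apply φ.injective
    rw [map_zero]
    refine sha_of_sel K (AlgebraicClosure K) d hd h (φ x) ?_
    rw [← map_nsmul, hx, map_zero]
  · rintro ⟨h1, h2⟩
    refine sel_of_sha K (AlgebraicClosure K) d hd (fun x hx => ?_) ?_
    · apply φ.symm.injective
      rw [map_zero]
      refine h2 (φ.symm x) ?_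
      rw [← map_nsmul, hx, map_zero]
    · have h3 : Finite ((EC d).Pt K) := Finite.of_equiv _ ψ.toEquiv
      have hinj : Function.Injective (fun Q : (EC d).Pt K => Q + Q) := by
        intro P Q hPQ
        have h4 : P + P = Q + Q := hPQ
        have h5 : (P - Q) + (P - Q) = 0 := by
          have h6 : (P - Q) + (P - Q) = (P + P) - (Q + Q) := by abel
          rw [h6, h4, sub_self]
        exact sub_eq_zero.1 (no_two_EC hd hno _ h5)
      intro P
      obtain ⟨Q, hQ⟩ := (Finite.injective_iff_surjective.1 hinj) P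
      exact ⟨Q, hQ.symm⟩

end

theorem no_cube (K : Type) [Field K] [NumberField K] (hK : ClsT K) : ¬ ∃ x : K, x ^ 3 = 2 := by
  obtain ⟨L, _, _, _, _, ⟨-, k, hk⟩, -⟩ := hK
  obtain ⟨M, _, _, _, L', _, _, _, N, _, _, _, _, θ, t, τ, σ, T, act, φ, C, _, _⟩ := exists_comp L k hk
  rintro ⟨x, hx⟩
  refine comp_no_cube C ⟨algebraMap K L x, ?_⟩
  rw [← map_pow, hx, map_ofNat]

/-- If there is no element of order two, there is none of order a power of two. -/
theorem two_pow_zero {A : Type} [AddCommGroup A] (h : ∀ x : A, 2 • x = 0 → x = 0) (n : ℕ) (x : A)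
    (hx : 2 ^ n • x = 0) : x = 0 := by
  induction n generalizing x with
  | zero => simpa using hx
  | succ n ih =>
    apply ih
    apply h
    rw [smul_smul, ← pow_succ']
    exact hx

end H19Q
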